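import Mathlib
import Pool.Agent.H491.Az17

set_option autoImplicit false

/-!
# The rank of random tuples of alternating multiple zeta values

Let `L` be a subfield of `ℝ` over which `π` is transcendental, for example the field of the real algebraic numbers. Consider
the alternating multiple zeta values `Li_{a_1, …, a_D}(z_1, …, z_D)`, `z_i = ± 1`, with exactly `s ≥ 1` entries `z_i = - 1`, with
`2 m + 2 ≤ a_i ≤ 2 m + 2 n + 1` and with exactly `q` odd entries `a_i`.

Let `f` be the number of the permutations of `D` elements that fix at least one of `D - q` given elements or at least two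
elements, and `0 ≤ p < f / D!`; here `f / D!` is at least `1 / 6` for `D ≥ 2`, it tends to `1 - 1 / e` for `D → ∞`, `q = 0` and
to `1 - 2 / e` for `D → ∞`, `q = D`.

Theorem. Let `n ≥ C (r + M + 1)`, with `C` depending on `D`, `q`, `s`, `p` only, and let `E` be a subspace of `ℝ` of dimension at
most `r` over `L`. Choose independently at random, for `i = 1, …, M`, one of the values above with `m = m_i`, where `m_1, …, m_M`
are arbitrary. The dimension over `L` of the space spanned by these `M` values modulo `E` dominates the binomial distribution
with parameters `M` and `p`: for all `j` it is at least `j` with probability at least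
`∑_(i ≥ j) binom(M, i) p ^ i (1 - p) ^ (M - i)`.

For `M = 1` this says that `E` misses at least the proportion `p` of the values in every window; for `E = L` these are
transcendental numbers. In general the span of `M` random values has dimension at least `(p - δ) M` with high probability, for
`M` up to a constant times `n`.

Proof. Let `a_1, …, a_D` be the letters, with signs `z_1, …, z_D`, `c` a rational function on the orderings and `G_c(a)` the sum
of the `c(σ) Li_{a ∘ σ}(z ∘ σ)`. As for the multiple zeta values (MP_2000e9_nt.FixedPoints), if fewer than `f` of the orderings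
have values outside of `E`, there is a `c ≠ 0` with `G_c(a) ∈ E` and, with a product `Θ'` of operators `1 - R_j` (`R_j` moves
the letter `j` to the front), `c_0 = Θ' c ≠ 0` does not depend on the place of an even letter, or of two odd letters. If the
set of the `a` with `G_c(a) ∈ E` has positive density it contains patterns (a box, a cube with a side in each direction
`e_i - e_j` and a free direction `2 b e_(i_0)`), and one gets `∑_v λ(2 b + v) w_v ∈ E'` with even `v` for many `b`, where
`λ(m) = ∑ ς ^ n / n ^ m` and the sign `ς` is that of the even letter, or the product of the signs of the two odd letters. For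
`ς = 1` all the minors of the matrix of the `ζ(2 i + 2 j) / π ^ (2 i + 2 j)` are nonzero by Descartes' rule of signs. For
`ς = - 1` we have no such sign argument. But the minors with rows in a block of bounded length are nonzero far from the origin,
because such a minor is asymptotically a product of two generalized Vandermonde determinants and of `± 1`; and of many
relations between the numbers, with different leading places, enough have their leading places in one block. This proves the
case `M = 1`; the general case follows by induction because `C` does not depend on `E`.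
-/

namespace Pool.Agent.Results.MP_528be1_nt.AlternatingProportion

/-- the alternating multiple zeta value `Li_{a_1, …, a_D}(z_1, …, z_D) = ∑_{n_1 > ⋯ > n_D ≥ 1} ∏ z_i ^ n_i / n_i ^ a_i` -/
noncomputable def value {D : ℕ} (a : Fin D → ℕ) (z : Fin D → ℤˣ) : ℝ :=
  ∑' n : {n : Fin D → ℕ // StrictAnti n ∧ ∀ i, 1 ≤ n i}, ∏ i, ((((z i : ℤˣ) : ℤ) : ℝ) ^ n.1 i * (((n.1 i : ℕ) : ℝ) ^ a i)⁻¹)

/-- the indices of depth `D` with entries between `2 m + 2` and `2 m + 2 n + 1`, exactly `q` of them odd -/
def indices (D q m n : ℕ) : Finset (Fin D → ℕ) :=
  (Fintype.piFinset fun _ => Finset.Icc (2 * m + 2) (2 * m + 2 * n + 1)).filter fun k =>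
    (Finset.univ.filter fun i => Odd (k i)).card = q

/-- the sign vectors with exactly `s` entries `- 1` -/
def signs (D s : ℕ) : Finset (Fin D → ℤˣ) := Finset.univ.filter fun z => (Finset.univ.filter fun i => z i = -1).card = s

open Classical in
/-- the number of the permutations of `D` elements that fix at least one of the first `e` elements or at least two
elements -/
noncomputable def fixCount (D e : ℕ) : ℕ :=
  ((Finset.univ : Finset (Equiv.Perm (Fin D))).filter fun π =>
    (∃ i : Fin D, (i : ℕ) < e ∧ π i = i) ∨ ∃ i j, i ≠ j ∧ π i = i ∧ π j = j).card

/-- the probability that a binomial random variable with parameters `M` and `p` is at least `j` -/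
noncomputable def binomialTail (p : ℝ) (M j : ℕ) : ℝ :=
  ∑ i ∈ Finset.range (M + 1), if j ≤ i then (M.choose i : ℝ) * p ^ i * (1 - p) ^ (M - i) else 0

/-- the dimension over `L` of the space spanned by `v_1, …, v_M` modulo `E` -/
noncomputable def rankModulo {L : Subfield ℝ} (E : Submodule L ℝ) {M : ℕ} (v : Fin M → ℝ) : ℕ :=
  Module.finrank L (Submodule.span L (Set.range fun i => E.mkQ (v i)))

open Classical in
theorem result (D q s : ℕ) (_hs : 1 ≤ s) (p : ℝ) (hp0 : 0 ≤ p) (hp : p < (fixCount D (D - q) : ℝ) / D.factorial) :
    ∃ C : ℕ, ∀ n r M : ℕ, C * (r + M + 1) ≤ n → ∀ (L : Subfield ℝ), Transcendental L Real.pi → ∀ (E : Submodule L ℝ),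
      Module.rank L E ≤ (r : Cardinal) → ∀ (m : Fin M → ℕ) (j : ℕ),
      binomialTail p M j * ((Fintype.piFinset fun i => indices D q (m i) n ×ˢ signs D s).card : ℝ) ≤
        (((Fintype.piFinset fun i => indices D q (m i) n ×ˢ signs D s).filter fun x =>
          j ≤ rankModulo E fun i => value (x i).1 (x i).2).card : ℝ) :=
  Pool.Agent.H491.Der.tuples_rankA D q s p hp0 hp

end Pool.Agent.Results.MP_528be1_nt.AlternatingProportion
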