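import Mathlib
import Pool.Agent.H491.Alt4
import Pool.Agent.H491.Rnd

set_option autoImplicit false

/-!
# Random elements of the space of alternating multiple zeta values

Let `E` be a space of real numbers of dimension at most `e` over the field of the real algebraic numbers, `w` a weight and
`2 (e + r) ≤ w + 1`. Let `z_1, …, z_r` be random combinations of all alternating multiple zeta values of weight `w`: the
coefficient of each of the `4 * 3 ^ (w - 2)` values in each `z_i` is one of two different real algebraic numbers (for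
example `0` or `1`), chosen at random. Then `z_1, …, z_r` are linearly independent over the real algebraic numbers modulo
`E`, with the exception of at most the part `∑_{i < r} (binom(w, 2 (e + i)) / 3 ^ (w - 2 (e + i) - 1)) ^ (1 / 2)` of all
choices. For fixed `e` and `r` this is `O(w ^ (e + r - 1) 3 ^ (-w / 2))`, and it is exponentially small for `e + r ≤ w / 6`.

Proof. A space of dimension at most `n`, `2 n + 1 ≤ w`, misses at least `3 ^ (w - 2 n - 1) / binom(w, 2 n)` of the values
of weight `w` (see `RobustDimension`). The inequality of Littlewood, Offord and Erdős in the rational vector space `ℝ / F`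
bounds the number of the combinations that lie in a space `F`.
-/

namespace Pool.Agent.Results.MP_528be1_nt.RandomElements

open Filter Topology

/-- the field of the real algebraic numbers -/
noncomputable abbrev RealAlg : IntermediateField ℚ ℝ := algebraicClosure ℚ ℝ

/-- the words of weight `w`: lists of pairs (positive integer, sign) of total weight `w`, not starting with `(1, 1)` -/
def Words (w : ℕ) : Set (List (ℕ × ℤˣ)) :=
  {s | (∀ p ∈ s, 1 ≤ p.1) ∧ s.head? ≠ some (1, 1) ∧ (s.map Prod.fst).sum = w}

/-- the partial sums `∑_{N ≥ l_1 > ⋯ > l_n > 0} ∏ z_j ^ l_j / l_j ^ a_j` for the word `(a_1, z_1), …, (a_n, z_n)` -/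
noncomputable def partialSum : List (ℕ × ℤˣ) → ℕ → ℝ
  | [], _ => 1
  | ((a, z) :: s), N => ∑ l ∈ Finset.Icc 1 N, (((z : ℤˣ) : ℤ) : ℝ) ^ l / (l : ℝ) ^ a * partialSum s (l - 1)

/-- the alternating multiple zeta value, the limit of the partial sums -/
noncomputable def value (s : List (ℕ × ℤˣ)) : ℝ := limUnder atTop (partialSum s)

open scoped Classical in
/-- the combination of all values of weight `w` with the coefficient `q s` for the words `s` in `A` and `p s` for the
others -/
noncomputable def combination (w : ℕ) (p q : List (ℕ × ℤˣ) → RealAlg) (A : Finset (List (ℕ × ℤˣ))) : ℝ :=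
  ∑ᶠ s ∈ Words w, ((if s ∈ A then q s else p s : RealAlg) : ℝ) * value s

open Pool.Agent.H491

theorem mem_Words {w : ℕ} {s : List (ℕ × ℤˣ)} : s ∈ Words w ↔ Alt.Adm s ∧ Alt.wt s = w := by
  constructor
  · rintro ⟨h1, h2, h3⟩
    refine ⟨⟨h1, fun p t e h => h2 ?_⟩, h3⟩
    rw [e, h]
    rfl
  · rintro ⟨⟨h1, h2⟩, h3⟩
    refine ⟨h1, fun h => ?_, h3⟩
    rcases s with _ | ⟨p, t⟩
    · simp at h
    · rw [List.head?_cons, Option.some.injEq] at h
      exact h2 p t rfl h

theorem finite_Words (w : ℕ) : (Words w).Finite :=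
  (Alt.finite_wt w).subset fun _ hs => ⟨(mem_Words.1 hs).1.1, (mem_Words.1 hs).2.le⟩

theorem partialSum_eq (s : List (ℕ × ℤˣ)) : ∀ N, partialSum s N = Gen.H Alt.ph s N := by
  induction s with
  | nil =>
    intro N
    rw [partialSum, Gen.H_nil]
  | cons p s ih =>
    intro N
    obtain ⟨a, z⟩ := p
    rw [partialSum]
    induction N with
    | zero => simp [Gen.H_cons_zero]
    | succ N ihN =>
      rw [Finset.sum_Icc_succ_top (by omega), ihN, Gen.H_cons_succ, Nat.add_sub_cancel, ih N]
      congr 1
      unfold Alt.ph Alt.sr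
      simp only
      push_cast
      rfl

theorem value_eq (s : List (ℕ × ℤˣ)) : value s = Alt.val s := by
  rw [value, Alt.val]
  congr 1
  exact funext (partialSum_eq s)

/-- the partial sums converge -/
theorem tendsto_value {w : ℕ} {s : List (ℕ × ℤˣ)} (hs : s ∈ Words w) : Tendsto (partialSum s) atTop (𝓝 (value s)) := by
  have e2 : partialSum s = Gen.H Alt.ph s := funext (partialSum_eq s)
  rw [e2, value_eq]
  exact Alt.tendsto_val s (mem_Words.1 hs).1

theorem combination_eq (w : ℕ) (p q : List (ℕ × ℤˣ) → RealAlg) (A : Finset (List (ℕ × ℤˣ))) :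
    combination w p q A = Rnd.comb Alt.val (finite_Words w).toFinset p q A := by
  rw [combination, finsum_mem_eq_finite_toFinset_sum _ (finite_Words w), Rnd.comb]
  refine Finset.sum_congr rfl fun s _ => ?_
  rw [value_eq]
  by_cases h : s ∈ A <;> simp [h]

theorem result (w e r : ℕ) (hw : 2 * (e + r) ≤ w + 1) (E : Submodule RealAlg ℝ) (hE : Module.rank RealAlg E ≤ e)
    (p q : Fin r → List (ℕ × ℤˣ) → RealAlg) (hpq : ∀ i s, p i s ≠ q i s) :
    ({A : Fin r → Finset (List (ℕ × ℤˣ)) | (∀ i, ↑(A i) ⊆ Words w) ∧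
      ¬ LinearIndependent RealAlg (fun i => E.mkQ (combination w (p i) (q i) (A i)))}.ncard : ℝ) ≤
    (∑ i ∈ Finset.range r, Real.sqrt ((w.choose (2 * (e + i)) : ℝ) / 3 ^ (w - 2 * (e + i) - 1))) *
      (2 ^ (Words w).ncard) ^ r := by
  classical
  set S := (finite_Words w).toFinset with hS
  have hSc : (Words w).ncard = S.card := Set.ncard_eq_toFinset_card _ (finite_Words w)
  have h := Rnd.card_Bad Alt.val S E e hE
    (fun i => Real.sqrt ((w.choose (2 * (e + i)) : ℝ) / 3 ^ (w - 2 * (e + i) - 1))) r (by
      intro n hn F hF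
      have h1 := Alt.card_out w (e + n) (by omega) F hF (Rnd.out Alt.val S F) (by
        intro u
        rw [Rnd.out, Finset.mem_filter, hS, Set.Finite.mem_toFinset, mem_Words, and_assoc])
      have h2 : (3 : ℝ) ^ (w - 2 * (e + n) - 1) ≤ (w.choose (2 * (e + n)) : ℝ) * ((Rnd.out Alt.val S F).card : ℝ) := by
        exact_mod_cast h1
      have h3 : (0 : ℝ) < (w.choose (2 * (e + n)) : ℝ) := by
        exact_mod_cast Nat.choose_pos (by omega)
      have h4 : (0 : ℝ) < 3 ^ (w - 2 * (e + n) - 1) := by positivity
      have e1 : (w.choose (2 * (e + n)) : ℝ) / 3 ^ (w - 2 * (e + n) - 1) =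
          (3 ^ (w - 2 * (e + n) - 1) / (w.choose (2 * (e + n)) : ℝ))⁻¹ := by rw [inv_div]
      rw [e1, Real.sqrt_inv, ← one_div]
      apply one_div_le_one_div_of_le (Real.sqrt_pos.2 (by positivity))
      apply Real.sqrt_le_sqrt
      have h5 : (3 : ℝ) ^ (w - 2 * (e + n) - 1) / (w.choose (2 * (e + n)) : ℝ) ≤ ((Rnd.out Alt.val S F).card : ℝ) := by
        rw [div_le_iff₀ h3]
        linarith
      linarith) r le_rfl p q hpq
  rw [hSc]
  refine le_trans ?_ h
  have e2 : {A : Fin r → Finset (List (ℕ × ℤˣ)) | (∀ i, ↑(A i) ⊆ Words w) ∧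
      ¬ LinearIndependent RealAlg (fun i => E.mkQ (combination w (p i) (q i) (A i)))} =
      ↑(Rnd.Bad Alt.val S E p q) := by
    ext A
    rw [Finset.mem_coe, Rnd.mem_Bad, Set.mem_ofPred_eq]
    have h5 : (∀ i, ↑(A i) ⊆ Words w) ↔ ∀ i, A i ⊆ S := by
      refine forall_congr' fun i => ?_
      rw [hS, Set.Finite.subset_toFinset]
    rw [h5]
    refine and_congr_right fun _ => ?_
    have h6 : (fun i => E.mkQ (combination w (p i) (q i) (A i))) = Rnd.cls Alt.val S E p q A := by
      funext i
      rw [combination_eq]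
      rfl
    rw [h6]
  rw [e2, Set.ncard_coe_finset]

end Pool.Agent.Results.MP_528be1_nt.RandomElements
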