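import Mathlib
import Pool.Agent.H491.Alt4

set_option autoImplicit false

/-!
# Alternating multiple zeta values outside a space of small dimension

The alternating multiple zeta values of weight `w` are indexed by words, lists of pairs (positive integer, sign) of total
weight `w` that do not start with `(1, 1)`. There are `4 * 3 ^ (w - 2)` words of weight `w ≥ 2`. For `2 e + 1 ≤ w` every
space `E` of real numbers of dimension at most `e` over the field of the real algebraic numbers misses at least
`3 ^ (w - 2 e - 1) / binom(w, 2 e)` of the alternating multiple zeta values of weight `w`. In particular (`e = 1`) at least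
`3 ^ (w - 3) / binom(w, 2)` of them are transcendental, in every weight `w ≥ 3`, and (`e = w / 6`) a space of dimension
`w / 6` misses an exponentially growing number of them.

Proof. The numbers `z_i = (log 2) ^ (2 i) ζ(2) ^ (e - i)`, `0 ≤ i ≤ e`, are linearly independent over the real algebraic
numbers (`log 2 / π` is transcendental, Gelfond and Schneider) and are products of values of one-letter words. Let `u` be a
word of weight `w - 2 e`. Its value `x` is not zero (the sign of a multiple polylogarithm is constant on the unit
interval). So `E` does not contain all the `z_i x`. By the stuffle product `z_i x` is a sum of values of words of weight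
`w` from which one gets `u` by taking away `2 e` units, and one word of weight `w` gives at most `binom(w, 2 e)` words `u`
in this way. Finally there are at least `3 ^ (w - 2 e - 1)` words `u`.
-/

namespace Pool.Agent.Results.MP_528be1_nt.RobustDimension

open Filter Topology

/-- the field of the real algebraic numbers -/
noncomputable abbrev RealAlg : IntermediateField ℚ ℝ := algebraicClosure ℚ ℝ

/-- words: lists of pairs (positive integer, sign), not starting with `(1, 1)` -/
def Word (s : List (ℕ × ℤˣ)) : Prop := (∀ p ∈ s, 1 ≤ p.1) ∧ s.head? ≠ some (1, 1)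

/-- the weight `a_1 + ⋯ + a_n` -/
def weight (s : List (ℕ × ℤˣ)) : ℕ := (s.map Prod.fst).sum

/-- the partial sums `∑_{N ≥ l_1 > ⋯ > l_n > 0} ∏ z_j ^ l_j / l_j ^ a_j` for the word `(a_1, z_1), …, (a_n, z_n)` -/
noncomputable def partialSum : List (ℕ × ℤˣ) → ℕ → ℝ
  | [], _ => 1
  | ((a, z) :: s), N => ∑ l ∈ Finset.Icc 1 N, (((z : ℤˣ) : ℤ) : ℝ) ^ l / (l : ℝ) ^ a * partialSum s (l - 1)

open Pool.Agent.H491

theorem word_iff (s : List (ℕ × ℤˣ)) : Word s ↔ Alt.Adm s := by
  constructor
  · rintro ⟨h1, h2⟩
    refine ⟨h1, fun p t e h => h2 ?_⟩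
    rw [e, h]
    rfl
  · rintro ⟨h1, h2⟩
    refine ⟨h1, fun h => ?_⟩
    rcases s with _ | ⟨p, t⟩
    · simp at h
    · rw [List.head?_cons, Option.some.injEq] at h
      exact h2 p t rfl h

theorem partialSum_eq (s : List (ℕ × ℤˣ)) : ∀ N, partialSum s N = Gen.H Alt.ph s N := by
  induction s with
  | nil =>
    intro N
    rw [partialSum, Gen.H_nil]
  | cons p s ih =>
    intro N
    obtain ⟨a, z⟩ := p
    rw [partialSum]
    induction N with
    | zero => simp [Gen.H_cons_zero]
    | succ N ihN =>
      rw [Finset.sum_Icc_succ_top (by omega), ihN, Gen.H_cons_succ, Nat.add_sub_cancel, ih N]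
      congr 1
      unfold Alt.ph Alt.sr
      simp only
      push_cast
      rfl

theorem result (w e : ℕ) (hw : 2 * e + 1 ≤ w) (E : Submodule RealAlg ℝ) (hE : Module.rank RealAlg E ≤ e) :
    3 ^ (w - 2 * e - 1) ≤ w.choose (2 * e) *
      {s | Word s ∧ weight s = w ∧ ∃ x, Tendsto (partialSum s) atTop (𝓝 x) ∧ x ∉ E}.ncard := by
  have hfin := Alt.finite_out w E
  have e1 : {s | Word s ∧ weight s = w ∧ ∃ x, Tendsto (partialSum s) atTop (𝓝 x) ∧ x ∉ E} =
      {u : List Alt.L | Alt.Adm u ∧ Alt.wt u = w ∧ Alt.val u ∉ E} := by
    ext s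
    simp only [Set.mem_ofPred_eq, word_iff]
    refine and_congr_right fun h => and_congr Iff.rfl ?_
    have h1 : Tendsto (partialSum s) atTop (𝓝 (Alt.val s)) := by
      have e2 : partialSum s = Gen.H Alt.ph s := funext (partialSum_eq s)
      rw [e2]
      exact Alt.tendsto_val s h
    constructor
    · rintro ⟨x, hx, hxE⟩
      rwa [tendsto_nhds_unique h1 hx]
    · intro hx
      exact ⟨_, h1, hx⟩
  rw [e1, Set.ncard_eq_toFinset_card _ hfin]
  refine Alt.card_out w e hw E hE _ fun u => ?_
  rw [Set.Finite.mem_toFinset]
  rfl

end Pool.Agent.Results.MP_528be1_nt.RobustDimension
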